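import Mathlib

namespace Pool.Agent.Results.MP_0fbb7a_co.Yes

variable {A : Type*}

/-- The factor of length `k` of `u` starting at position `p`. -/
def seg (u : ℕ → A) (p k : ℕ) : List A := (List.range k).map fun i => u (p + i)

/-- The language of `u`. -/
def Lang (u : ℕ → A) : Set (List A) := {w | ∃ p k, w = seg u p k}

/-- Factor complexity. -/
noncomputable def C (u : ℕ → A) (n : ℕ) : ℕ := {w | w ∈ Lang u ∧ w.length = n}.ncard

/-- Palindromic complexity. -/
noncomputable def P (u : ℕ → A) (n : ℕ) : ℕ :=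
  {w | w ∈ Lang u ∧ w.length = n ∧ w.reverse = w}.ncard

noncomputable def T (u : ℕ → A) (n : ℕ) : ℤ :=
  (C u (n + 1) : ℤ) - C u n + 2 - P u (n + 1) - P u n

/-- `v` is a complete return word of `w` in `u`. -/
def IsRet (u : ℕ → A) (w v : List A) : Prop :=
  v ∈ Lang u ∧ w.length < v.length ∧ w <+: v ∧ w <:+ v ∧
    {i | i + w.length ≤ v.length ∧ w <+: v.drop i}.ncard = 2

lemma len_seg (u : ℕ → A) (p k : ℕ) : (seg u p k).length = k := by simp [seg]

lemma seg_eq {u : ℕ → A} {p q k : ℕ} :
    seg u p k = seg u q k ↔ ∀ i < k, u (p + i) = u (q + i) := by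
  simp [seg]

lemma seg_rev {u : ℕ → A} {p q k : ℕ} :
    seg u p k = (seg u q k).reverse ↔ ∀ i j, i + j + 1 = k → u (p + i) = u (q + j) := by
  constructor
  · intro h i j hij
    have h1 := List.getElem_of_eq h (i := i) (by rw [len_seg]; omega)
    rw [List.getElem_reverse] at h1
    simp only [seg, List.getElem_map, List.getElem_range, List.length_map, List.length_range] at h1
    rw [h1]; congr 2; omega
  · intro h
    apply List.ext_getElem (by simp [len_seg])
    intro i h1 h2
    rw [List.getElem_reverse]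
    rw [len_seg] at h1
    simp only [seg, List.getElem_map, List.getElem_range, List.length_map, List.length_range]
    exact h _ _ (by omega)

lemma seg_prefix_drop {u : ℕ → A} {s l q m i : ℕ} (h : i + l ≤ m) :
    seg u s l <+: (seg u q m).drop i ↔ seg u (q + i) l = seg u s l := by
  rw [seg_eq, List.prefix_iff_getElem]
  constructor
  · rintro ⟨h1, h2⟩ j hj
    have := h2 j (by rwa [len_seg])
    simp only [seg, List.getElem_map, List.getElem_range, List.getElem_drop] at this
    rw [this, add_assoc]
  · intro h1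
    refine ⟨by simp [len_seg]; omega, fun j hj => ?_⟩
    rw [len_seg] at hj
    simp only [seg, List.getElem_map, List.getElem_range, List.getElem_drop]
    rw [← h1 j hj, add_assoc]

def Good (u : ℕ → A) (K e : ℕ) : Prop :=
  ∃ s l, s + l = e ∧ K ≤ l ∧ seg u s l = (seg u s l).reverse ∧ ∀ q < s, seg u q l ≠ seg u s l

lemma good_of_pal {u : ℕ → A} {K : ℕ}
    (hK : ∀ w ∈ Lang u, w.reverse = w → K ≤ w.length → ∀ v, IsRet u w v → v.reverse = v) :
    ∀ s l, K ≤ l → seg u s l = (seg u s l).reverse → Good u K (s + l) := by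
  classical
  intro s
  induction s using Nat.strong_induction_on with
  | _ s ih =>
    intro l hl hp
    by_cases h : ∀ q < s, seg u q l ≠ seg u s l
    · exact ⟨s, l, rfl, hl, hp, h⟩
    · have hex : ∃ d, d + 1 ≤ s ∧ seg u (s - (d + 1)) l = seg u s l := by
        push Not at h
        obtain ⟨q, hq, he⟩ := h
        exact ⟨s - q - 1, by omega, by rwa [show s - (s - q - 1 + 1) = q by omega]⟩
      obtain ⟨hd1, hd2⟩ := Nat.find_spec hex
      have hmin := fun m => Nat.find_min hex (m := m)
      generalize Nat.find hex = d at hd1 hd2 hmin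
      have hret : IsRet u (seg u s l) (seg u (s - (d + 1)) (d + 1 + l)) := by
        refine ⟨⟨_, _, rfl⟩, by simp [len_seg], ?_, ?_, ?_⟩
        · have := (seg_prefix_drop (u := u) (s := s) (l := l) (q := s - (d + 1)) (m := d + 1 + l)
            (i := 0) (by omega)).2 (by simpa using hd2)
          simpa using this
        · have := (seg_prefix_drop (u := u) (s := s) (l := l) (q := s - (d + 1)) (m := d + 1 + l)
            (i := d + 1) (by omega)).2 (by rw [Nat.sub_add_cancel hd1])
          rw [this.eq_of_length (by simp [len_seg])]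
          exact List.drop_suffix _ _
        · rw [Set.ncard_eq_two]
          refine ⟨0, d + 1, by omega, ?_⟩
          ext i
          simp only [len_seg, Set.mem_setOf_eq, Set.mem_insert_iff, Set.mem_singleton_iff]
          constructor
          · rintro ⟨h1, h2⟩
            rw [seg_prefix_drop h1] at h2
            by_contra hc
            refine hmin (d - i) (by omega) ⟨by omega, ?_⟩
            rwa [show s - (d - i + 1) = s - (d + 1) + i by omega]
          · rintro (rfl | rfl)
            · exact ⟨by omega, (seg_prefix_drop (by omega)).2 (by simpa using hd2)⟩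
            · exact ⟨by omega, (seg_prefix_drop (by omega)).2 (by rw [Nat.sub_add_cancel hd1])⟩
      have hv := hK _ ⟨s, l, rfl⟩ hp.symm (by rwa [len_seg]) _ hret
      have := ih (s - (d + 1)) (by omega) (d + 1 + l) (by omega) hv.symm
      rwa [show s - (d + 1) + (d + 1 + l) = s + l by omega] at this

lemma first_finite [Finite A] (u : ℕ → A) (l : ℕ) :
    {s | ∀ q < s, seg u q l ≠ seg u s l}.Finite := by
  refine Set.Finite.of_injOn (f := fun s => seg u s l) (t := {w : List A | w.length = l})
    (fun s _ => len_seg u s l) ?_ (List.finite_length_eq A l)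
  intro s hs t ht he
  rcases lt_trichotomy s t with h | h | h
  · exact absurd he (ht s h)
  · exact h
  · exact absurd he.symm (hs t h)

lemma good_all [Finite A] {u : ℕ → A} {K : ℕ}
    (hinf : {w | w ∈ Lang u ∧ w.reverse = w}.Infinite)
    (hK : ∀ w ∈ Lang u, w.reverse = w → K ≤ w.length → ∀ v, IsRet u w v → v.reverse = v) :
    ∃ N, ∀ m, N ≤ m → Good u K m := by
  have hfin : (⋃ l ∈ {l | l ≤ K + 1},
      (fun s => s + l) '' {s | ∀ q < s, seg u q l ≠ seg u s l}).Finite :=
    (Set.finite_le_nat (K + 1)).biUnion fun l _ => (first_finite u l).image _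
  obtain ⟨N, hN⟩ := hfin.bddAbove
  have step : ∀ e, N ≤ e → Good u K (e + 1) → Good u K e := by
    rintro e he ⟨s, l, h1, h2, h3, h4⟩
    have hl : K + 2 ≤ l := by
      by_contra hc
      have : e + 1 ≤ N := hN (Set.mem_biUnion (x := l) (by simp; omega) ⟨s, h4, h1⟩)
      omega
    have := good_of_pal hK (s + 1) (l - 2) (by omega) (by
      rw [seg_rev] at h3 ⊢
      intro i j hij
      have := h3 (i + 1) (j + 1) (by omega)
      rwa [show s + (i + 1) = s + 1 + i by omega, show s + (j + 1) = s + 1 + j by omega] at this)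
    rwa [show s + 1 + (l - 2) = e by omega] at this
  refine ⟨N, fun m hm => ?_⟩
  have down : ∀ d, Good u K (m + d) → Good u K m := by
    intro d
    induction d with
    | zero => exact id
    | succ d ih => exact fun h => ih (step _ (by omega) h)
  obtain ⟨w, ⟨⟨s, l, rfl⟩, hp⟩, hw⟩ := hinf.exists_notMem_finite (List.finite_length_lt A (m + K))
  simp only [Set.mem_setOf_eq, len_seg, not_lt] at hw
  have := good_of_pal hK s l (by omega) hp.symm
  exact down (s + l - m) (by rwa [show m + (s + l - m) = s + l by omega])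

def New (u : ℕ → A) (k : ℕ) : Set ℕ :=
  {p | ∀ q < p, seg u q k ≠ seg u p k ∧ seg u q k ≠ (seg u p k).reverse}

def NP (u : ℕ → A) (k : ℕ) : Set ℕ := {p | p ∈ New u k ∧ seg u p k = (seg u p k).reverse}

def NN (u : ℕ → A) (k : ℕ) : Set ℕ := {p | p ∈ New u k ∧ seg u p k ≠ (seg u p k).reverse}

lemma new_finite [Finite A] (u : ℕ → A) (k : ℕ) : (New u k).Finite :=
  (first_finite u k).subset fun _ hp q hq => (hp q hq).1

lemma new_inj (u : ℕ → A) (k : ℕ) : Set.InjOn (fun s => seg u s k) (New u k) := by
  intro s hs t ht he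
  rcases lt_trichotomy s t with h | h | h
  · exact absurd he (ht s h).1
  · exact h
  · exact absurd he.symm (hs t h).1

lemma exists_new (u : ℕ → A) (k p : ℕ) :
    ∃ s ∈ New u k, seg u s k = seg u p k ∨ seg u s k = (seg u p k).reverse := by
  classical
  have hex : ∃ s, seg u s k = seg u p k ∨ seg u s k = (seg u p k).reverse := ⟨p, Or.inl rfl⟩
  refine ⟨Nat.find hex, fun q hq => ?_, Nat.find_spec hex⟩
  have h1 := Nat.find_min hex hq
  rw [not_or] at h1
  rcases Nat.find_spec hex with h | h
  · rw [h]; exact h1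
  · rw [h, List.reverse_reverse]; exact h1.symm

lemma P_eq (u : ℕ → A) (k : ℕ) : P u k = (NP u k).ncard := by
  rw [P, ← ((new_inj u k).mono (fun p (hp : p ∈ NP u k) => hp.1)).ncard_image]
  congr 1
  ext w
  constructor
  · rintro ⟨⟨p, l, rfl⟩, hl, hp⟩
    rw [len_seg] at hl
    subst hl
    obtain ⟨s, hs, h⟩ := exists_new u l p
    rw [hp, or_self] at h
    exact ⟨s, ⟨hs, by rw [h, hp]⟩, h⟩
  · rintro ⟨s, hs, rfl⟩
    exact ⟨⟨s, k, rfl⟩, len_seg u s k, hs.2.symm⟩

lemma C_eq [Finite A] {u : ℕ → A} (hrev : ∀ w ∈ Lang u, w.reverse ∈ Lang u) (k : ℕ) :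
    C u k = (New u k).ncard + (NN u k).ncard := by
  have hi : Set.InjOn (fun s => (seg u s k).reverse) (NN u k) := fun s hs t ht he =>
    new_inj u k hs.1 ht.1 (List.reverse_injective he)
  have hf : (NN u k).Finite := (new_finite u k).subset fun p hp => hp.1
  rw [C, ← (new_inj u k).ncard_image, ← hi.ncard_image,
    ← Set.ncard_union_eq _ ((new_finite u k).image _) (hf.image _)]
  · congr 1
    ext w
    constructor
    · rintro ⟨⟨p, l, rfl⟩, hl⟩
      rw [len_seg] at hl
      subst hl
      obtain ⟨s, hs, h | h⟩ := exists_new u l p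
      · exact Or.inl ⟨s, hs, h⟩
      · by_cases hp : seg u s l = (seg u s l).reverse
        · exact Or.inl ⟨s, hs, by simp only; rw [hp, h, List.reverse_reverse]⟩
        · exact Or.inr ⟨s, ⟨hs, hp⟩, by simp only; rw [h, List.reverse_reverse]⟩
    · rintro (⟨s, hs, rfl⟩ | ⟨s, hs, rfl⟩)
      · exact ⟨⟨s, k, rfl⟩, len_seg u s k⟩
      · exact ⟨hrev _ ⟨s, k, rfl⟩, by simp [len_seg]⟩
  · rw [Set.disjoint_left]
    rintro w ⟨s, hs, rfl⟩ ⟨t, ht, he⟩
    simp only at he
    rcases lt_trichotomy s t with h | h | h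
    · exact (ht.1 s h).2 he.symm
    · subst h; exact ht.2 he.symm
    · exact (hs t h).2 (by rw [← he, List.reverse_reverse])

lemma new_split [Finite A] (u : ℕ → A) (k : ℕ) :
    (New u k).ncard = (NP u k).ncard + (NN u k).ncard := by
  rw [← Set.ncard_union_eq _ ((new_finite u k).subset fun p (hp : p ∈ NP u k) => hp.1)
    ((new_finite u k).subset fun p (hp : p ∈ NN u k) => hp.1)]
  · congr 1
    ext p
    simp only [NP, NN, Set.mem_union, Set.mem_setOf_eq]
    by_cases h : seg u p k = (seg u p k).reverse
    · exact ⟨fun h1 => Or.inl ⟨h1, h⟩, fun h1 => h1.elim And.left And.left⟩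
    · exact ⟨fun h1 => Or.inr ⟨h1, h⟩, fun h1 => h1.elim And.left And.left⟩
  · rw [Set.disjoint_left]
    exact fun p h1 h2 => h2.2 h1.2

lemma new_succ {u : ℕ → A} {K n p : ℕ} (hg : Good u K (p + 1 + n)) :
    p + 1 ∈ New u n ↔ p ∈ NN u (n + 1) := by
  simp only [New, NN, Set.mem_setOf_eq, ne_eq, seg_eq, seg_rev]
  constructor
  · intro h
    refine ⟨fun q hq => ⟨fun he => ?_, fun he => ?_⟩, fun he => ?_⟩
    · refine (h (q + 1) (by omega)).1 fun i hi => ?_
      have := he (i + 1) (by omega)
      rwa [show q + (i + 1) = q + 1 + i by omega, show p + (i + 1) = p + 1 + i by omega] at this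
    · refine (h q (by omega)).2 fun i j hij => ?_
      have := he i (j + 1) (by omega)
      rwa [show p + (j + 1) = p + 1 + j by omega] at this
    · refine (h p (by omega)).2 fun i j hij => ?_
      have := he i (j + 1) (by omega)
      rwa [show p + (j + 1) = p + 1 + j by omega] at this
  · rintro ⟨h1, h2⟩ q hq
    obtain ⟨s, l, e1, -, e3, e4⟩ := hg
    simp only [ne_eq, seg_eq, seg_rev] at e3 e4
    by_cases hl : l ≤ n
    · refine ⟨fun he => ?_, fun he => ?_⟩
      · refine e4 (q + n - l) (by omega) fun i hi => ?_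
        have := he (n - l + i) (by omega)
        rwa [show q + (n - l + i) = q + n - l + i by omega,
          show p + 1 + (n - l + i) = s + i by omega] at this
      · refine e4 q (by omega) fun i hi => ?_
        rw [he i (n - 1 - i) (by omega), e3 i (l - 1 - i) (by omega)]
        congr 1; omega
    · exfalso
      have key : ∀ i j, i + j + 1 = n + 1 → u (s + i) = u (p + j) := by
        intro i j hij
        rw [e3 i (l - 1 - i) (by omega)]
        congr 1; omega
      by_cases hs : s = p
      · subst hs; exact h2 key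
      · exact (h1 s (by omega)).2 key

theorem result {A : Type*} [Finite A] (u : ℕ → A) (hrev : ∀ w ∈ Lang u, w.reverse ∈ Lang u)
    (hinf : {w | w ∈ Lang u ∧ w.reverse = w}.Infinite) (K : ℕ)
    (hK : ∀ w ∈ Lang u, w.reverse = w → K ≤ w.length → ∀ v, IsRet u w v → v.reverse = v) :
    ∃ N, ∀ n, N ≤ n → T u n = 0 := by
  obtain ⟨N, hN⟩ := good_all hinf hK
  refine ⟨N, fun n hn => ?_⟩
  have hf : (NN u (n + 1)).Finite := (new_finite u _).subset fun p hp => hp.1
  have h1 : (New u n).ncard = (NN u (n + 1)).ncard + 1 := by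
    rw [← Set.ncard_image_of_injective (NN u (n + 1)) Nat.succ_injective,
      ← Set.ncard_insert_of_notMem (a := 0) (by simp) (hf.image _)]
    congr 1
    ext p
    cases p with
    | zero => simp [New]
    | succ p =>
      rw [new_succ (hN _ (by omega))]
      simp
  have h2 := new_split u n
  have h3 := new_split u (n + 1)
  rw [T, C_eq hrev, C_eq hrev, P_eq, P_eq]
  omega

end Pool.Agent.Results.MP_0fbb7a_co.Yes
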